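import Pool.Agent.Helper5.FRC.Defs

/-!
# Project FRC (MP_79b960_co), packet IND
-/

set_option autoImplicit false

namespace Pool.Agent.Helper98.FRC.IND

open Finset Pool.Agent.Helper5.FRC

variable {V : Type} [Fintype V] [DecidableEq V]

theorem inv_back {n : Equiv.Perm V} {S : Finset V} (hS : Inv n S) {x : V} (hx : n x ∈ S) :
    x ∈ S := by
  have h1 : S.image n ⊆ S := by
    intro y hy
    obtain ⟨z, hz, rfl⟩ := mem_image.1 hy
    exact hS z hz
  have h2 : S.image n = S :=
    eq_of_subset_of_card_le h1 (card_image_of_injective S n.injective).ge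
  rw [← h2] at hx
  obtain ⟨z, hz, h3⟩ := mem_image.1 hx
  rwa [← n.injective h3]

theorem inv_sdiff {n : Equiv.Perm V} {A S : Finset V} (hA : Inv n A) (hS : Inv n S) :
    Inv n (A \ S) := by
  intro x hx
  rw [mem_sdiff] at hx ⊢
  exact ⟨hA x hx.1, fun h => hx.2 (inv_back hS h)⟩

theorem exists_cir {n : Equiv.Perm V} : ∀ (k : ℕ) (S : Finset V), S.card = k → S.Nonempty →
    Inv n S → ∃ C ⊆ S, Cir n C := by
  intro k
  induction k using Nat.strong_induction_on with
  | _ k ih =>
    intro S hk hne hS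
    by_cases h : ∀ D ⊆ S, D.Nonempty → Inv n D → D = S
    · exact ⟨S, Subset.refl _, hne, hS, h⟩
    · push Not at h
      obtain ⟨D, hD, hDne, hDi, hDS⟩ := h
      have hlt : D.card < k := by
        rw [← hk]
        exact card_lt_card (hD.ssubset_of_ne hDS)
      obtain ⟨C, hC, hCc⟩ := ih D.card hlt D rfl hDne hDi
      exact ⟨C, hC.trans hD, hCc⟩

theorem cir_disj {n : Equiv.Perm V} {C D : Finset V} (hC : Cir n C) (hD : Cir n D)
    (hne : C ≠ D) : Disjoint C D := by
  rw [disjoint_iff_inter_eq_empty]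
  by_contra h
  have h0 : (C ∩ D).Nonempty := nonempty_iff_ne_empty.2 h
  have hI : Inv n (C ∩ D) := by
    intro x hx
    rw [mem_inter] at hx ⊢
    exact ⟨hC.2.1 x hx.1, hD.2.1 x hx.2⟩
  have h1 := hC.2.2 _ inter_subset_left h0 hI
  have h2 := hD.2.2 _ inter_subset_right h0 hI
  exact hne (h1.symm.trans h2)

theorem even_card {A : Finset V} {t : V → V} (h : Prg A t) : Even A.card := by
  have h1 : ∑ x ∈ A, (1 : ZMod 2) = 0 := by
    refine sum_involution (fun x _ => t x) ?_ ?_ ?_ ?_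
    · intro a _
      decide
    · intro a ha _
      exact (h a ha).2.2
    · intro a ha
      exact (h a ha).1
    · intro a ha
      exact (h a ha).2.1
  rw [sum_const, nsmul_eq_mul, mul_one] at h1
  rw [ZMod.natCast_eq_zero_iff] at h1
  exact even_iff_two_dvd.2 h1

/-- the circuits of `A` -/
theorem decomp {n : Equiv.Perm V} {A : Finset V} (hA : Inv n A) :
    ∃ F : Finset (Finset V), (∀ C, C ∈ F ↔ C ⊆ A ∧ Cir n C) ∧ A = F.biUnion id := by
  classical
  refine ⟨univ.filter fun C => C ⊆ A ∧ Cir n C, fun C => by simp, ?_⟩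
  set F := univ.filter fun C => C ⊆ A ∧ Cir n C with hF
  have hU : F.biUnion id ⊆ A := by
    intro x hx
    obtain ⟨C, hC, hx⟩ := mem_biUnion.1 hx
    exact (mem_filter.1 hC).2.1 hx
  have hUi : Inv n (F.biUnion id) := by
    intro x hx
    obtain ⟨C, hC, hx⟩ := mem_biUnion.1 hx
    exact mem_biUnion.2 ⟨C, hC, (mem_filter.1 hC).2.2.2.1 x hx⟩
  refine (eq_of_subset_of_card_le hU ?_).symm
  by_contra hlt
  have hne : (A \ F.biUnion id).Nonempty := by
    rw [nonempty_iff_ne_empty]
    intro h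
    rw [sdiff_eq_empty_iff_subset] at h
    exact hlt (card_le_card h)
  obtain ⟨C, hC, hCc⟩ := exists_cir _ _ rfl hne (inv_sdiff hA hUi)
  have hCF : C ∈ F := by
    rw [hF, mem_filter]
    exact ⟨mem_univ _, hC.trans sdiff_subset, hCc⟩
  obtain ⟨x, hx⟩ := hCc.1
  have h1 := mem_sdiff.1 (hC hx)
  exact h1.2 (mem_biUnion.2 ⟨C, hCF, hx⟩)

theorem enum {n : Equiv.Perm V} {A : Finset V} {F : Finset (Finset V)}
    (hF : ∀ C, C ∈ F ↔ C ⊆ A ∧ Cir n C) (hU : A = F.biUnion id)
    (ho : ∀ C ⊆ A, Cir n C → Odd C.card) (k : ℕ) (hk : F.card = k) :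
    ∃ C : Fin k → Finset V, (∀ i, Cir n (C i)) ∧ (∀ i, Odd (C i).card) ∧
      (∀ i j, i ≠ j → Disjoint (C i) (C j)) ∧ A = univ.biUnion C := by
  let e := F.equivFinOfCardEq hk
  have hC : ∀ i, ((e.symm i : F) : Finset V) ⊆ A ∧ Cir n ((e.symm i : F) : Finset V) := by
    intro i
    exact (hF _).1 (e.symm i).2
  refine ⟨fun i => ((e.symm i : F) : Finset V), fun i => (hC i).2, fun i => ho _ (hC i).1 (hC i).2,
    ?_, ?_⟩
  · intro i j hij
    refine cir_disj (hC i).2 (hC j).2 fun h => hij ?_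
    exact e.symm.injective (Subtype.ext h)
  · ext x
    constructor
    · intro hx
      rw [hU] at hx
      obtain ⟨C, hCF, hx⟩ := mem_biUnion.1 hx
      refine mem_biUnion.2 ⟨e ⟨C, hCF⟩, mem_univ _, ?_⟩
      simpa using hx
    · intro hx
      obtain ⟨i, _, hx⟩ := mem_biUnion.1 hx
      exact (hC i).1 hx

theorem par {n : Equiv.Perm V} {A : Finset V} {F : Finset (Finset V)}
    (hF : ∀ C, C ∈ F ↔ C ⊆ A ∧ Cir n C) (hU : A = F.biUnion id)
    (ho : ∀ C ⊆ A, Cir n C → Odd C.card) (hA : Even A.card) : Even F.card := by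
  have h1 : A.card = ∑ C ∈ F, C.card := by
    conv_lhs => rw [hU]
    refine card_biUnion fun C hC D hD hne => ?_
    exact cir_disj ((hF C).1 hC).2 ((hF D).1 hD).2 hne
  have h2 : ((A.card : ℕ) : ZMod 2) = (F.card : ZMod 2) := by
    rw [h1, Nat.cast_sum]
    have : ∀ C ∈ F, ((C.card : ℕ) : ZMod 2) = 1 := by
      intro C hC
      have := ho C ((hF C).1 hC).1 ((hF C).1 hC).2
      rwa [← ZMod.natCast_eq_one_iff_odd] at this
    rw [sum_congr rfl this, sum_const, nsmul_eq_mul, mul_one]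
  rw [← ZMod.natCast_eq_zero_iff_even] at hA ⊢
  rw [← h2, hA]

theorem t (h1 : DisStmt) (h2 : ExtyStmt) (h3 : TwoStmt) (h4 : FourStmt) : IndStmt := by
  intro V _ _ n A t
  induction hk : A.card using Nat.strong_induction_on generalizing A t with
  | _ k ih =>
    intro hn hA ht hB hE hFc
    by_cases hex : ∃ Z ⊆ A, Cir n Z ∧ Even Z.card
    · obtain ⟨Z, hZA, hZ, hZe⟩ := hex
      have hZ4 := hE Z hZA hZ hZe
      obtain ⟨p, t', hp, hpn, ht', htt, hB'⟩ := h1 V n A Z t hA ht hB hZA hZ hZ4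
      refine h2 V n A Z t p t' hA ht hZA hZ hZ4 hp hpn ht' htt ?_
      have hlt : (A \ Z).card < k := by
        rw [← hk, card_sdiff_of_subset hZA]
        have := card_le_card hZA
        omega
      refine ih _ hlt (A \ Z) t' rfl hn (inv_sdiff hA hZ.2.1) ht' hB' ?_ ?_
      · intro C hC
        exact hE C (hC.trans sdiff_subset)
      · intro F hF
        exact hFc F fun C hC => ⟨(hF C hC).1.trans sdiff_subset, (hF C hC).2⟩
    · have ho : ∀ C ⊆ A, Cir n C → Odd C.card := by
        intro C hC hCc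
        by_contra h
        exact hex ⟨C, hC, hCc, Nat.not_odd_iff_even.1 h⟩
      obtain ⟨F, hF, hU⟩ := decomp hA
      have hc : F.card ≤ 4 := hFc F fun C hC =>
        ⟨((hF C).1 hC).1, ((hF C).1 hC).2, ho C ((hF C).1 hC).1 ((hF C).1 hC).2⟩
      have he := par hF hU ho (even_card ht)
      have hcases : F.card = 0 ∨ F.card = 2 ∨ F.card = 4 := by
        obtain ⟨m, hm⟩ := he
        omega
      rcases hcases with h | h | h
      · have hF0 : F = ∅ := card_eq_zero.1 h
        have hA0 : A = ∅ := by rw [hU, hF0, biUnion_empty]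
        subst hA0
        refine ⟨id, ∅, Subset.refl _, ?_, ?_, ?_, ?_, ?_⟩
        · intro v hv
          exact absurd hv (notMem_empty v)
        · intro v hv
          exact absurd hv (notMem_empty v)
        · intro v hv
          exact absurd hv (notMem_empty v)
        · simp
        · intro S hS _ hSo
          rw [subset_empty.1 hS] at hSo
          simp at hSo
      · obtain ⟨C, c1, c2, c3, c4⟩ := enum hF hU ho 2 h
        exact h3 V n A t C hn ht hB c1 c2 c3 c4
      · obtain ⟨C, c1, c2, c3, c4⟩ := enum hF hU ho 4 h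
        exact h4 V n A t C hn ht hB c1 c2 c3 c4

end Pool.Agent.Helper98.FRC.IND
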